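import Pool.Agent.R459.Nbhd
import Pool.Agent.TH823.Fam.Fam2
import Pool.Agent.Results.MP_61161c_nt.DigitPermutations

/-!
# Sums of two distinct and almost equal odd primes: all the even integers near almost all members of arbitrary thin
families of integers of nearly minimal additive energy, for example of the values of a polynomial at the primes

Definitions used:
* in `Pool.Agent.H560R3.GB`: `sing m`: the singular series `2 C₂ ∏_{p ∣ m, p > 2} (p - 1) / (p - 2)`, where
  `C₂ = ∏_{p > 2} (1 - 1 / (p - 1) ^ 2)`.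

The transfer from windows in the circle method to families of nearly minimal energy and the bounds for the energy of
polynomial values are from the starting files (`Pool.Agent.R459.Nbhd`, `Pool.Agent.TH823.Fam`).
-/

set_option autoImplicit false

namespace Pool.Agent.Results.MP_61161c_nt.ThinFamilies

open Finset Pool.Agent.H560R3.GB

/-- The number of the `p` such that `p` and `p' = m - p` are odd primes, `p < p'` and `p' - p ≤ H`. -/
def pairs (m H : ℕ) : ℕ :=
  ((range m).filter (fun p => p.Prime ∧ p ≠ 2 ∧ (m - p).Prime ∧ m - p ≠ 2 ∧ p < m - p ∧ m - p ≤ p + H)).card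

/-- For every `H` with `m / log ^ A m ≤ H ≤ m` there are distinct odd primes `p < p'` with `p + p' = m` and
`p' - p ≤ H`, and the number of these pairs is `sing m * H / (2 log ^ 2 m)` up to a relative error of at
most `ε`. -/
def Holds (ε : ℝ) (A m : ℕ) : Prop :=
  ∀ H : ℕ, H ≤ m → (m : ℝ) / Real.log m ^ A ≤ H →
    (∃ p p' : ℕ, p.Prime ∧ p'.Prime ∧ p ≠ 2 ∧ p' ≠ 2 ∧ p < p' ∧ p + p' = m ∧ p' - p ≤ H) ∧
    |(pairs m H : ℝ) - sing m * H / (2 * Real.log m ^ 2)| ≤ ε * (sing m * H / (2 * Real.log m ^ 2))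

/-- The additive energy of order `h` of a finite family of integers `v i`: the number of solutions of
`v (a 1) + ... + v (a h) = v (b 1) + ... + v (b h)`. -/
noncomputable def energy (h : ℕ) {ι : Type} [Fintype ι] (v : ι → ℤ) : ℕ :=
  Nat.card {q : (Fin h → ι) × (Fin h → ι) // ∑ j, v (q.1 j) = ∑ j, v (q.2 j)}

open Classical in
/-- The number of the members `v i` of the family for which `Holds` fails for some even integer `m > 0` at a distance
of at most `D` from `v i`. -/
noncomputable def exceptions (ε : ℝ) (A : ℕ) (D : ℝ) {ι : Type} [Fintype ι] (v : ι → ℤ) : ℕ :=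
  (univ.filter (fun i => ∃ m : ℕ, 0 < m ∧ Even m ∧ |(((m : ℤ) - v i : ℤ) : ℝ)| ≤ D ∧ ¬ Holds ε A m)).card

theorem general (h A B C W U : ℕ) (hh : 1 ≤ h) (ε : ℝ) (hε : 0 < ε) :
    ∃ N₀ : ℕ, ∀ N : ℕ, N₀ ≤ N → ∀ (ι : Type) [Fintype ι] (v : ι → ℤ),
      (∀ i, v i ≤ B * N) →
      (energy h v : ℝ) * N ≤ Real.log N ^ C * (Fintype.card ι : ℝ) ^ (2 * h) →
      (exceptions ε A (Real.log N ^ W) v : ℝ) ≤ Fintype.card ι / Real.log N ^ U := by
  classical
  obtain ⟨m₀, hm₀⟩ := MP_61161c_nt.DigitPermutations.holds_of A ε hε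
  obtain ⟨N₀, h0⟩ := Pool.Agent.R459.near_even h (A + 1) B C W U m₀ hh (min ε (1 / 2) / 2)
    (div_pos (lt_min hε (by norm_num)) (by norm_num)) (Holds ε A) hm₀
  refine ⟨N₀, fun N hN ι _ v hv hE => ?_⟩
  unfold exceptions
  refine h0 N hN ι v hv hE _ ?_
  intro i hi
  rw [mem_filter] at hi
  exact hi.2

/-- the energy of a subfamily -/
lemma energy_sub (p x : ℕ) (s : ℕ → ℤ) (M : Finset ℕ) (hM : M ⊆ Icc 1 x) :
    energy p (fun m : {m // m ∈ M} => s m) ≤ Pool.Agent.H373R2.T7.energy p x s := by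
  classical
  unfold energy Pool.Agent.H373R2.T7.energy
  rw [Nat.card_eq_fintype_card, Fintype.card_subtype]
  apply card_le_card_of_injOn (fun q => (fun j => ((q.1 j : {m // m ∈ M}) : ℕ), fun j => ((q.2 j : {m // m ∈ M}) : ℕ)))
  · intro q hq
    rw [mem_coe, mem_filter] at hq
    rw [mem_coe, mem_filter, mem_product, Fintype.mem_piFinset, Fintype.mem_piFinset]
    exact ⟨⟨fun j => hM (q.1 j).2, fun j => hM (q.2 j).2⟩, hq.2⟩
  · intro q _ q' _ h2
    simp only [Prod.mk.injEq] at h2
    apply Prod.ext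
    · funext j
      exact Subtype.ext (congrFun h2.1 j)
    · funext j
      exact Subtype.ext (congrFun h2.2 j)

/-- Let `A`, `B`, `C`, `W`, `U` and `ε > 0` be fixed and let `N` be large.

(1) Let `h ≥ 1` be fixed and let `v i`, `i ∈ ι`, be an ARBITRARY finite family of integers `≤ B N` whose additive
energy of order `h` is at most `log ^ C N` times `(#ι) ^ (2 h) / N` (up to the power of the logarithm this is the least
possible energy of a family with members in `[0, N]`, and the family may have as few as `N ^ (1 / h)` members). Then all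
the members of the family, with at most `#ι / log ^ U N` exceptions, have the following property: ALL the even integers
`m > 0` at a distance of at most `log ^ W N` from the member are sums of two distinct odd primes `p < p'`, even with
`p' - p ≤ H` for every `H` with `m / log ^ A m ≤ H ≤ m`, and the number of these representations is as predicted, up to
a relative error of at most `ε`.

(2) In particular this holds for `v n = c + f n`, where `f` is a fixed polynomial of degree `d ≥ 1` with integer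
coefficients, `|c| ≤ B N`, `N / log ^ C N ≤ x ^ d ≤ B N`, and `n` ranges over an ARBITRARY set of at least
`x / log ^ C N` integers in `[1, x]`, for example over the primes in `[1, x]`. -/
theorem result (A B C W U : ℕ) (ε : ℝ) (hε : 0 < ε) :
    (∀ h : ℕ, 1 ≤ h → ∃ N₀ : ℕ, ∀ N : ℕ, N₀ ≤ N → ∀ (ι : Type) [Fintype ι] (v : ι → ℤ),
      (∀ i, v i ≤ B * N) →
      (energy h v : ℝ) * N ≤ Real.log N ^ C * (Fintype.card ι : ℝ) ^ (2 * h) →
      (exceptions ε A (Real.log N ^ W) v : ℝ) ≤ Fintype.card ι / Real.log N ^ U) ∧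
    (∀ f : Polynomial ℤ, 1 ≤ f.natDegree → ∃ N₀ : ℕ, ∀ N : ℕ, N₀ ≤ N → ∀ x : ℕ,
      N / Real.log N ^ C ≤ (x : ℝ) ^ f.natDegree → x ^ f.natDegree ≤ B * N →
      ∀ M : Finset ℕ, M ⊆ Icc 1 x → x / Real.log N ^ C ≤ (M.card : ℝ) → ∀ c : ℤ, |c| ≤ B * N →
        (exceptions ε A (Real.log N ^ W) (fun n : {n // n ∈ M} => c + f.eval (n : ℤ)) : ℝ) ≤
          M.card / Real.log N ^ U) := by
  classical
  refine ⟨fun h hh => general h A B C W U hh ε hε, fun f hf => ?_⟩
  obtain ⟨p, B', hBB', N₁, h1⟩ := Pool.Agent.TH823.Fam.poly_family f hf B C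
  obtain ⟨N₂, h2⟩ := Pool.Agent.H373R2.T7.ev_L' 1
  obtain ⟨N₃, h6⟩ := Pool.Agent.H373R2.T7.ev_log' (C + 1) 1
  obtain ⟨N₀, h0⟩ := general (max p 1) A B' (C + 1 + C * (2 * p)) W U (le_max_right _ _) ε hε
  refine ⟨N₀ + N₁ + N₂ + N₃ + 2, fun N hN x hx1 hx2 M hM hMc c hc => ?_⟩
  have hL1 := h2 N (by omega)
  have hL0 : 0 < Real.log N := by linarith
  have hN1 : 1 ≤ N := by omega
  obtain ⟨h3, h4⟩ := h1 N (by omega) x hx2 (by rwa [div_le_iff₀' (by positivity)] at hx1) c hc
  have hp1 : 1 ≤ p := by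
    by_contra hp
    obtain rfl : p = 0 := by omega
    have e1 : 0 < Pool.Agent.H373R2.T7.energy 0 x (fun m => c + f.eval (m : ℤ)) := by
      unfold Pool.Agent.H373R2.T7.energy
      rw [card_pos]
      refine ⟨(Fin.elim0, Fin.elim0), ?_⟩
      simp only [mem_filter, mem_product, Fintype.mem_piFinset]
      exact ⟨⟨fun j => j.elim0, fun j => j.elim0⟩, by simp⟩
    have e2 : (1 : ℝ) ≤ Pool.Agent.H373R2.T7.energy 0 x (fun m => c + f.eval (m : ℤ)) := by
      exact_mod_cast e1
    have e3 := h6 N (by omega)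
    rw [one_mul] at e3
    rw [mul_zero, pow_zero, mul_one] at h4
    have hNr : (2 : ℝ) ≤ N := by exact_mod_cast (by omega : 2 ≤ N)
    have e4 : √(N : ℝ) < N := by
      rw [Real.sqrt_lt' (by linarith)]
      nlinarith
    have e5 : (N : ℝ) ≤ Pool.Agent.H373R2.T7.energy 0 x (fun m => c + f.eval (m : ℤ)) * N :=
      le_mul_of_one_le_left (by linarith) e2
    linarith
  rw [max_eq_left hp1] at h0
  have h5 := h0 N (by omega) {m // m ∈ M} (fun m => c + f.eval (m : ℤ))
    (fun i => (le_abs_self _).trans (h3 _ (hM i.2))) (by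
    have e1 := energy_sub p x (fun m => c + f.eval (m : ℤ)) M hM
    have e2 : (energy p (fun m : {m // m ∈ M} => c + f.eval (m : ℤ)) : ℝ) ≤
        (Pool.Agent.H373R2.T7.energy p x (fun m => c + f.eval (m : ℤ)) : ℝ) := by exact_mod_cast e1
    have e3 : (x : ℝ) ≤ Real.log N ^ C * M.card := by rwa [div_le_iff₀' (by positivity)] at hMc
    rw [Fintype.card_coe]
    calc (energy p (fun m : {m // m ∈ M} => c + f.eval (m : ℤ)) : ℝ) * N
        ≤ (Pool.Agent.H373R2.T7.energy p x (fun m => c + f.eval (m : ℤ)) : ℝ) * N :=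
          mul_le_mul_of_nonneg_right e2 (Nat.cast_nonneg _)
      _ ≤ Real.log N ^ (C + 1) * (x : ℝ) ^ (2 * p) := h4
      _ ≤ Real.log N ^ (C + 1) * (Real.log N ^ C * M.card) ^ (2 * p) := by
          apply mul_le_mul_of_nonneg_left _ (by positivity)
          exact pow_le_pow_left₀ (Nat.cast_nonneg _) e3 _
      _ = Real.log N ^ (C + 1 + C * (2 * p)) * (M.card : ℝ) ^ (2 * p) := by
          rw [mul_pow, ← pow_mul, pow_add]; ring)
  rw [Fintype.card_coe] at h5
  exact h5

end Pool.Agent.Results.MP_61161c_nt.ThinFamilies
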